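import Pool.Agent.H33.SMS.Targets

/-!
# The numbers with two-adic valuation two for which `2` is bad (row BTW)
-/

set_option autoImplicit false

namespace Pool.Agent.H5.SMS

open Pool.Agent.H33.SMS Pool.Agent.H14.MT

theorem two_pow_dvd_factorial (j : ℕ) : 2 ^ j ∣ (2 * j).factorial := by
  induction j with
  | zero => simp
  | succ j ih =>
    have h1 : 2 * (j + 1) = (2 * j + 1) + 1 := by ring
    rw [h1, Nat.factorial_succ, Nat.factorial_succ, pow_succ]
    have h2 : (2 * j + 1 + 1) * ((2 * j + 1) * (2 * j).factorial) =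
        (2 * j).factorial * 2 * ((j + 1) * (2 * j + 1)) := by ring
    rw [h2]
    exact Dvd.dvd.mul_right (Nat.mul_dvd_mul_right ih 2) _

theorem pf_BTW : T_BTW := by
  intro n hn hbad
  obtain ⟨i, hi1, hin, hle⟩ := hbad
  have hn0 : n ≠ 0 := by omega
  have hni : n - i ≠ 0 := by omega
  have key : ∀ a : ℕ, 2 ^ a ∣ i.factorial → 2 ^ (a + 2) ∣ n - i := by
    intro a ha
    rw [padicValNat_dvd_iff_le hni]
    have h1 := (padicValNat_dvd_iff_le (p := 2) (Nat.factorial_ne_zero i)).1 ha
    omega
  have h4n : 4 ∣ n := by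
    have h1 := (padicValNat_dvd_iff_le (p := 2) (n := 2) hn0).2 hn.ge
    simpa using h1
  have h8n : ¬ 8 ∣ n := by
    intro h8
    have h1 := (padicValNat_dvd_iff_le (p := 2) (n := 3) hn0).1 (by simpa using h8)
    omega
  have h4i : 4 ∣ n - i := by
    have h1 := key 0 (one_dvd _)
    simpa using h1
  have h4 : 4 ∣ i := by omega
  obtain ⟨l, hl⟩ := h4
  have hl1 : 1 ≤ l := by omega
  have hf := key (2 * l) (by
    have h1 := two_pow_dvd_factorial (2 * l)
    have h2 : 2 * (2 * l) = i := by omega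
    rwa [h2] at h1)
  rcases Nat.even_or_odd l with he | ho
  · exfalso
    obtain ⟨k, hk⟩ := he
    have h8i : 8 ∣ i := ⟨k, by omega⟩
    have h8 : 8 ∣ n - i := by
      refine Dvd.dvd.trans ?_ hf
      have h3 : (2 : ℕ) ^ 3 ∣ 2 ^ (2 * l + 2) := pow_dvd_pow 2 (by omega)
      simpa using h3
    omega
  · rcases Nat.lt_or_ge l 2 with h1 | h1
    · left
      have hl2 : l = 1 := by omega
      have hi4 : i = 4 := by omega
      have h5 := key 3 (by
        rw [hi4]
        decide)
      rw [hi4] at h5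
      exact ⟨by omega, by simpa using h5⟩
    · right
      obtain ⟨k, hk⟩ := ho
      have h5 : 2 * (2 * l) = i := by omega
      exact ⟨2 * l, by omega, by omega, by rw [h5]; exact hf⟩

end Pool.Agent.H5.SMS
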